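import Mathlib
import Pool.Agent.Q64.EP.Main

/-!
# Eternal domination and clique covers of prisms: the answer is no

There is a finite, even triangle-free, graph `G` with `θ (G) = γ^∞ (G)` and
`γ^∞ (G □ K_2) < θ (G □ K_2)`.

The graph `G` is the corona of a triangle-free graph `H` (a pendant vertex is attached to each
vertex of `H`) with 129 vertices which can be defended by 64 guards; such a graph `H` was
constructed in the starting files (frozen statement S09347, MP_6cb088_co). The pendant edges are a
clique cover and the pendant vertices are independent, so `α (G) = γ^∞ (G) = θ (G) = 129`. The
prism of `G` is triangle-free and has `4 * 129` vertices, so `θ (G □ K_2) ≥ 258`; but 129 guards on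
the vertical edges over the pendant vertices and 64 guards on each of the two copies of `H` defend
the prism, so `γ^∞ (G □ K_2) ≤ 257`.

The definitions are those of the question: `IsEternalFamily` (`Pool.Agent.Q64.EP.Defs`) is an
eternal family of `k`-element dominating sets, `eternalDomination` is the least `k` for which there
is one, `cliqueCover` is the least number of cliques which partition the vertices, and `prism G` is
the Cartesian product of `G` with the complete graph on two vertices (`□` of Mathlib).
-/

set_option autoImplicit false

namespace Pool.Agent.Results.MP_349597_co.PrismCounterexample

open SimpleGraph Pool.Agent.Q64.EP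

/-- **There is a finite triangle-free graph `G` with `θ (G) = γ^∞ (G)` and
`γ^∞ (G □ K_2) < θ (G □ K_2)`.** -/
theorem result : ∃ (V : Type) (_ : Fintype V) (_ : DecidableEq V) (G : SimpleGraph V),
    G.CliqueFree 3 ∧ cliqueCover G = eternalDomination G ∧
      eternalDomination (prism G) < cliqueCover (prism G) := by
  obtain ⟨V, i1, i2, H, h1, h2, h3⟩ := exists_graph
  exact ⟨V ⊕ V, inferInstance, inferInstance, corona H, corona_cliqueFree h1,
    corona_works h1 h2 (by rw [h3]; norm_num)⟩

end Pool.Agent.Results.MP_349597_co.PrismCounterexample
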